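import Pool.Agent.Helper31.Del.Goals
import Pool.Agent.Helper30.Brouwer.Kakutani

/-! (S1) continuous maps of bounded displacement are surjective -/

namespace Pool.Agent.Helper33.Del

open Module Pool.Agent.Helper31.Del Pool.Agent.Helper30.Brouwer

theorem bddSurj {E : Type*} [NormedAddCommGroup E] [InnerProductSpace ℝ E]
    [FiniteDimensional ℝ E] : BddSurj E := by
  intro φ C hφ hC p
  have hC0 : 0 ≤ C := (norm_nonneg _).trans (hC 0)
  obtain ⟨x, -, hx⟩ := brouwer_fd (Metric.closedBall p C) (isCompact_closedBall p C)
    (convex_closedBall p C) ⟨p, Metric.mem_closedBall_self hC0⟩ (fun q => q - φ q + p)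
    (by fun_prop) (fun q _ => by
      rw [Metric.mem_closedBall, dist_eq_norm]
      have := hC q
      rw [show q - φ q + p - p = -(φ q - q) by abel, norm_neg]
      exact this)
  refine ⟨x, ?_⟩
  have h : x - φ x + p = x := hx
  have h2 : p - φ x = 0 := by
    have : x - φ x + p - x = 0 := by rw [h, sub_self]
    rw [← this]
    abel
  exact (sub_eq_zero.1 h2).symm

end Pool.Agent.Helper33.Del
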