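import Pool.Agent.Helper31.Del.Goals

/-! (S4) affine combinations of few `C¹` maps on a small affine subspace form a thin set -/

namespace Pool.Agent.Helper33.Del

open Module Pool.Agent.Helper31.Del

theorem thinComb {E : Type*} [NormedAddCommGroup E] [InnerProductSpace ℝ E]
    [FiniteDimensional ℝ E] : ThinComb E := by
  classical
  intro ι s p B hs hB hp hdim
  obtain ⟨i₀, hi₀⟩ := hs
  obtain ⟨b₀, hb₀⟩ := hB
  set s' := s.erase i₀ with hs'
  have hcard : s'.card + 1 = s.card := Finset.card_erase_add_one hi₀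
  let V := ({i // i ∈ s'} → ℝ) × B.direction
  have hfin : finrank ℝ V = s'.card + finrank ℝ B.direction := by
    simp [V]
  refine ⟨s'.card + finrank ℝ B.direction, by omega, ?_⟩
  have hfin' : finrank ℝ (Fin (s'.card + finrank ℝ B.direction) → ℝ) = finrank ℝ V := by
    rw [hfin]; simp
  let e : (Fin (s'.card + finrank ℝ B.direction) → ℝ) ≃L[ℝ] V :=
    ContinuousLinearEquiv.ofFinrankEq hfin'
  let Ψ : V → E := fun x =>
    (1 - ∑ i : {i // i ∈ s'}, x.1 i) • p i₀ (b₀ + (x.2 : E)) +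
      ∑ i : {i // i ∈ s'}, x.1 i • p i.1 (b₀ + (x.2 : E))
  have hcoe : ContDiff ℝ 1 (fun x : V => (b₀ + (x.2 : E))) := by
    have h1 : ContDiff ℝ 1 (fun y : B.direction => (y : E)) :=
      (B.direction.subtypeL).contDiff
    exact contDiff_const.add (h1.comp contDiff_snd)
  have hco : ∀ i : {i // i ∈ s'}, ContDiff ℝ 1 (fun x : V => x.1 i) := by
    intro i
    have h1 : ContDiff ℝ 1 (fun y : ({i // i ∈ s'} → ℝ) => y i) := contDiff_apply ℝ ℝ i
    exact h1.comp contDiff_fst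
  have hΨ : ContDiff ℝ 1 Ψ := by
    refine ContDiff.add (ContDiff.smul (contDiff_const.sub (ContDiff.sum fun i _ => hco i))
      ((hp i₀ hi₀).comp hcoe)) (ContDiff.sum fun i _ => (hco i).smul
      ((hp i.1 (Finset.mem_of_mem_erase i.2)).comp hcoe))
  refine ⟨fun x => Ψ (e x), hΨ.comp e.contDiff, ?_⟩
  rintro y ⟨b, hb, w, hw, rfl⟩
  have hdir : b - b₀ ∈ B.direction := B.vsub_mem_direction hb hb₀
  refine ⟨e.symm (fun i => w i.1, ⟨b - b₀, hdir⟩), ?_⟩
  simp only [ContinuousLinearEquiv.apply_symm_apply, Ψ]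
  rw [show b₀ + (b - b₀) = b by abel]
  have h1 : ∑ i : {i // i ∈ s'}, w i.1 = ∑ i ∈ s', w i := Finset.sum_coe_sort s' w
  have h2 : ∑ i : {i // i ∈ s'}, w i.1 • p i.1 b = ∑ i ∈ s', w i • p i b :=
    Finset.sum_coe_sort s' (fun i => w i • p i b)
  rw [h1, h2]
  have h3 : ∑ i ∈ s', w i + w i₀ = 1 := by
    rw [← hw]; exact Finset.sum_erase_add s w hi₀
  rw [show 1 - ∑ i ∈ s', w i = w i₀ by linarith, add_comm]
  exact Finset.sum_erase_add s (fun i => w i • p i b) hi₀

end Pool.Agent.Helper33.Del
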